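import Pool.Agent.V5helper60.HW.Same

/-!
# Critical extensions: where the Hasse-Weil conjecture can fail for the first time

Let `E` be an elliptic curve over a number field `K` whose `L`-series has no meromorphic continuation to
`U` (for instance `U = ℂ`).  There is an algebraic extension `M` of `K` which is CRITICAL: the
continuation of `L(E/F, s)` fails for arbitrarily large finite extensions `F` of `K` inside `M`, and for
every field `N` larger than `M` it holds for all sufficiently large finite extensions inside `N`.  For
such an `M` there is one prime number `l` with the following properties.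

* All finite Galois extensions of `M` have `l`-hyperelementary groups.
* Either `M` is the field fixed by one automorphism `σ`, or there is a `k` such that the power
  `L(E/F, s) ^ (l ^ k)` has a continuation for all large `F` inside `M`: the only obstacle to the
  continuation of `L(E/F, s)` is then the extraction of an `l ^ k`-th root.
* For every `N` and all large `F` inside `M` the group `Gal(F(E[N]) / F)` is `l`-hyperelementary; if `N`
  is prime to `l` then `Gal(F(E[N ^ j]) / F(E[N]))` is cyclic, for every `j`.
* For every prime number `p` and all large `F` inside `M`, `E` has an `F`-rational subgroup of order `p`,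
  or the automorphisms over an extension of `F` of degree at most two act on `E[p]` through a commutative
  group.

So, for every `N`, the conjecture has to be proved only for the curves whose groups `Gal(F(E[N]) / F)` are
of this special kind.

The proof.  The property of `M` that the continuation fails for arbitrarily large finite extensions inside `M` is
inherited by the unions of chains, because a finite extension inside a union lies in one of its members;
so there are maximal fields `M` with this property.  Let `L / K` be finite and Galois.  By the maximality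
of `M`, the finitely many subfields of `L` and Galois theory, for all large `F` inside `M` the continuation
holds over all fields `X` with `F < X ≤ F L`; so, if it fails over `F`, Solomon's induction theorem
(`Pool.Agent.R433.MD`, library) shows that the group `Gal(F L / F)`, which is the group of `L` over
`M ∩ L`, is itself hyperelementary.  The prime number does not depend on `L`, since a group that is
hyperelementary for two prime numbers is cyclic; and if one of these groups is not cyclic then its
subgroups which are cyclic or hyperelementary for a prime number different from `l` are proper subgroups,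
and the induction theorem gives the continuation of a power with an exponent `l ^ k`.  If all groups are
cyclic, one finds `σ` by compactness.
-/

set_option autoImplicit false

namespace Pool.Agent.Results.MP_0d9be2_nt.CriticalExtensions

open NumberField IsDedekindDomain Filter Topology

open scoped Classical

/-- `W v` is, for every finite place `v`, an integral model of `E` with discriminant minimal at
`v`. -/
def MinimalModels {K : Type} [Field K] [NumberField K] (E : WeierstrassCurve K)
    (W : HeightOneSpectrum (𝓞 K) → WeierstrassCurve (𝓞 K)) : Prop :=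
  ∀ v : HeightOneSpectrum (𝓞 K),
    (∃ C : WeierstrassCurve.VariableChange K, C • (W v).map (algebraMap (𝓞 K) K) = E) ∧
    ∀ W' : WeierstrassCurve (𝓞 K),
      (∃ C : WeierstrassCurve.VariableChange K, C • W'.map (algebraMap (𝓞 K) K) = E) →
      ∀ n : ℕ, (W v).Δ ∈ v.asIdeal ^ n → W'.Δ ∈ v.asIdeal ^ n

/-- The Euler factor at `v`, `(1 - a_v Nv^{-s} + Nv^{1-2s})⁻¹` if the reduction at `v` is good and
`(1 - a_v Nv^{-s})⁻¹` if it is bad, where `a_v` is `Nv` minus the number of affine points of the
reduction of `W v`. -/
noncomputable def localFactor {K : Type} [Field K] [NumberField K]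
    (W : HeightOneSpectrum (𝓞 K) → WeierstrassCurve (𝓞 K)) (v : HeightOneSpectrum (𝓞 K))
    (s : ℂ) : ℂ :=
  (1 - ((Ideal.absNorm v.asIdeal : ℂ)
        - (Nat.card {xy : (𝓞 K ⧸ v.asIdeal) × (𝓞 K ⧸ v.asIdeal) //
            ((W v).map (Ideal.Quotient.mk v.asIdeal)).toAffine.Equation xy.1 xy.2} : ℂ))
        * (Ideal.absNorm v.asIdeal : ℂ) ^ (-s)
    + (if (W v).Δ ∈ v.asIdeal then 0 else (Ideal.absNorm v.asIdeal : ℂ))
        * (Ideal.absNorm v.asIdeal : ℂ) ^ (-2 * s))⁻¹

/-- The `L`-series, as the Euler product over all finite places. -/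
noncomputable def LSeries {K : Type} [Field K] [NumberField K]
    (W : HeightOneSpectrum (𝓞 K) → WeierstrassCurve (𝓞 K)) (s : ℂ) : ℂ :=
  ∏' v : HeightOneSpectrum (𝓞 K), localFactor W v s

/-- The `m`-th power of the `L`-series of `E` has a meromorphic continuation to `U`. -/
def Continues {K : Type} [Field K] [NumberField K] (E : WeierstrassCurve K) (U : Set ℂ) (m : ℕ) :
    Prop :=
  ∀ W : HeightOneSpectrum (𝓞 K) → WeierstrassCurve (𝓞 K), MinimalModels E W →
    ∃ Λ : ℂ → ℂ, MeromorphicOn Λ U ∧ ∀ s : ℂ, 3 / 2 < s.re → Λ s = LSeries W s ^ m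

section
variable {K Ω : Type} [Field K] [Field Ω] [Algebra K Ω]

/-- `P F` holds for all sufficiently large finite extensions `F` of `K` inside `M`. -/
def ForLarge (M : IntermediateField K Ω) (P : IntermediateField K Ω → Prop) : Prop :=
  ∃ F₁ : IntermediateField K Ω, F₁ ≤ M ∧ FiniteDimensional K F₁ ∧
    ∀ F, F₁ ≤ F → F ≤ M → FiniteDimensional K F → P F

/-- The extension `M` of `K` is critical for the property `Q` of the finite extensions of `K`: there
are arbitrarily large finite extensions inside `M` without the property `Q`, and for every larger field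
`N` all sufficiently large finite extensions inside `N` have the property `Q`. -/
def Critical (Q : IntermediateField K Ω → Prop) (M : IntermediateField K Ω) : Prop :=
  ¬ ForLarge M Q ∧ ∀ N, M < N → ForLarge N Q

end

/-- The `m`-th power of the `L`-series of `E` over the finite extension `F` of `K` has a meromorphic
continuation to `U`. -/
def ContinuesOver {K : Type} [Field K] [NumberField K] (E : WeierstrassCurve K) (U : Set ℂ) (m : ℕ)
    (F : IntermediateField K (AlgebraicClosure K)) : Prop :=
  ∀ _ : NumberField F, Continues (E.map (algebraMap K F)) U m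

/-- `G` has a normal cyclic subgroup (generated by `c`) of order prime to `l`, and every element of
the quotient has `l`-power order. -/
def Hyperelementary (l : ℕ) (G : Type) [Group G] : Prop :=
  ∃ c : G, (orderOf c).Coprime l ∧ (∀ g : G, g * c * g⁻¹ ∈ Subgroup.zpowers c) ∧
    ∀ g : G, ∃ k : ℕ, g ^ l ^ k ∈ Subgroup.zpowers c

section
variable {K : Type} [Field K]

/-- The group of the points of `E` over the algebraic closure of `K`. -/
abbrev Points (E : WeierstrassCurve K) : Type :=
  (E.baseChange (AlgebraicClosure K)).toAffine.Point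

/-- The action of an automorphism of the algebraic closure on the points. -/
noncomputable def act (E : WeierstrassCurve K) (σ : AlgebraicClosure K ≃ₐ[K] AlgebraicClosure K) :
    Points E →+ Points E :=
  WeierstrassCurve.Affine.Point.map (W' := E.toAffine)
    (σ : AlgebraicClosure K →ₐ[K] AlgebraicClosure K)

/-- The group of the points whose order divides `n`. -/
noncomputable def torsion (E : WeierstrassCurve K) (n : ℕ) : AddSubgroup (Points E) where
  carrier := {P | n • P = 0}
  add_mem' := by
    intro P Q hP hQ
    change n • (P + Q) = 0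
    rw [nsmul_add, (hP : n • P = 0), (hQ : n • Q = 0), add_zero]
  zero_mem' := nsmul_zero n
  neg_mem' := by
    intro P hP
    change n • (-P) = 0
    rw [neg_nsmul, (hP : n • P = 0), neg_zero]

/-- `σ` and `τ` act in the same way on the group `E[n]` of the points whose order divides `n`. -/
def SameOn (E : WeierstrassCurve K) (n : ℕ)
    (σ τ : AlgebraicClosure K ≃ₐ[K] AlgebraicClosure K) : Prop :=
  ∀ P ∈ torsion E n, act E σ P = act E τ P

/-- All finite Galois extensions of `M` have `l`-hyperelementary groups. -/
def HyperelementaryExtensions (l : ℕ) (M : IntermediateField K (AlgebraicClosure K)) : Prop :=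
  ∀ (N : IntermediateField M (AlgebraicClosure K)) [FiniteDimensional M N] [IsGalois M N],
    Hyperelementary l (N ≃ₐ[M] N)

/-- The automorphisms over `F` induce an `l`-hyperelementary group on `E[n]`: there is a `c` over `F`
such that the order of the action of `c` on `E[n]` is prime to `l`, all conjugates of `c` act as powers of
`c`, and for every `g` over `F` there is a `k` such that `g ^ (l ^ k)` acts as a power of `c`. -/
def HyperelementaryOn (E : WeierstrassCurve K) (l n : ℕ)
    (F : IntermediateField K (AlgebraicClosure K)) : Prop :=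
  ∃ c ∈ F.fixingSubgroup, (∃ t : ℕ, t.Coprime l ∧ SameOn E n (c ^ t) 1) ∧
    (∀ g ∈ F.fixingSubgroup, ∃ i : ℤ, SameOn E n (g * c * g⁻¹) (c ^ i)) ∧
    ∀ g ∈ F.fixingSubgroup, ∃ (k : ℕ) (i : ℤ), SameOn E n (g ^ l ^ k) (c ^ i)

/-- The automorphisms over `F` which are trivial on `E[n]` induce a cyclic group on `E[n ^ j]`. -/
def CyclicOn (E : WeierstrassCurve K) (n j : ℕ) (F : IntermediateField K (AlgebraicClosure K)) :
    Prop :=
  ∃ c ∈ F.fixingSubgroup, SameOn E n c 1 ∧
    ∀ g ∈ F.fixingSubgroup, SameOn E n g 1 → ∃ i : ℤ, SameOn E (n ^ j) g (c ^ i)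

/-- The automorphisms over `F` act on `E[n]` as powers of `σ`. -/
def PowersOn (E : WeierstrassCurve K) (σ : AlgebraicClosure K ≃ₐ[K] AlgebraicClosure K) (n : ℕ)
    (F : IntermediateField K (AlgebraicClosure K)) : Prop :=
  ∀ τ ∈ F.fixingSubgroup, ∃ i : ℤ, SameOn E n τ (σ ^ i)

/-- `M` is the field fixed by the automorphism `σ`, and for every `n` all automorphisms over a
sufficiently large finite extension of `K` inside `M` act on `E[n]` as powers of `σ`. -/
def Monogenic (E : WeierstrassCurve K) (σ : AlgebraicClosure K ≃ₐ[K] AlgebraicClosure K)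
    (M : IntermediateField K (AlgebraicClosure K)) : Prop :=
  (∀ x, x ∈ M ↔ σ x = x) ∧ ∀ n : ℕ, 1 ≤ n → ForLarge M (PowersOn E σ n)

/-- `E` has a subgroup of order `p` which is defined over `F`. -/
def HasRationalSubgroup (E : WeierstrassCurve K) (p : ℕ)
    (F : IntermediateField K (AlgebraicClosure K)) : Prop :=
  ∃ C : AddSubgroup (Points E), Nat.card C = p ∧
    ∀ σ ∈ F.fixingSubgroup, ∀ P ∈ C, act E σ P ∈ C

/-- Over a finite extension `F'` of `F` of degree at most two the automorphisms act on `E[p]` through a
commutative group. -/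
def AbelianInDegreeTwo (E : WeierstrassCurve K) (p : ℕ)
    (F : IntermediateField K (AlgebraicClosure K)) : Prop :=
  ∃ F' : IntermediateField K (AlgebraicClosure K), F ≤ F' ∧ FiniteDimensional K F' ∧
    Module.finrank K F' ≤ 2 * Module.finrank K F ∧
    ∀ σ ∈ F'.fixingSubgroup, ∀ τ ∈ F'.fixingSubgroup, SameOn E p (σ * τ) (τ * σ)

/-- `E` has a subgroup of order `p` defined over `F`, or the automorphisms over an extension of `F` of
degree at most two act on `E[p]` through a commutative group. -/
def ReducibleOrDihedral (E : WeierstrassCurve K) (p : ℕ)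
    (F : IntermediateField K (AlgebraicClosure K)) : Prop :=
  HasRationalSubgroup E p F ∨ AbelianInDegreeTwo E p F

end

section bridge
variable {K : Type} [Field K] [NumberField K]

open Pool.Agent.H341R2.EC (IsModel IsMinAt red aff trc dlt)
open Pool.Agent.R433.MD (lf LL Cont)
open Pool.Agent.H921R2.TatePole (nm two_le_nm)

omit [NumberField K] in
theorem isModel_iff (E : WeierstrassCurve K) (W : WeierstrassCurve (𝓞 K)) :
    (∃ C : WeierstrassCurve.VariableChange K, C • W.map (algebraMap (𝓞 K) K) = E) ↔
      IsModel E W := by
  constructor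
  · rintro ⟨C, hC⟩
    exact ⟨C⁻¹, by rw [← hC, inv_smul_smul]⟩
  · rintro ⟨C, hC⟩
    exact ⟨C⁻¹, by rw [← hC, inv_smul_smul]⟩

theorem minimalModels_iff (E : WeierstrassCurve K)
    (V : HeightOneSpectrum (𝓞 K) → WeierstrassCurve (𝓞 K)) :
    MinimalModels E V ↔ ∀ v, IsMinAt E v (V v) := by
  unfold MinimalModels IsMinAt
  simp only [isModel_iff]

theorem factor_eq (V : HeightOneSpectrum (𝓞 K) → WeierstrassCurve (𝓞 K)) (s : ℂ)
    (v : HeightOneSpectrum (𝓞 K)) : localFactor V v s = (lf V s v)⁻¹ := by
  unfold localFactor
  congr 1
  unfold lf trc dlt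
  have h0 : ((nm v : ℕ) : ℂ) ≠ 0 := by
    have := two_le_nm v
    exact_mod_cast (by omega : nm v ≠ 0)
  have e1 : Nat.card {xy : (𝓞 K ⧸ v.asIdeal) × (𝓞 K ⧸ v.asIdeal) //
      ((V v).map (Ideal.Quotient.mk v.asIdeal)).toAffine.Equation xy.1 xy.2} =
      aff (red v (V v)) := by
    unfold aff red
    refine Nat.card_congr (Equiv.subtypeEquivRight fun xy => ?_)
    rw [WeierstrassCurve.Affine.equation_iff]
  have e2 : ((nm v : ℕ) : ℂ) ^ (1 - 2 * s) = ((nm v : ℕ) : ℂ) * ((nm v : ℕ) : ℂ) ^ (-2 * s) := by
    rw [sub_eq_add_neg, Complex.cpow_add _ _ h0, Complex.cpow_one]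
    congr 2
    ring
  have e3 : (Ideal.absNorm v.asIdeal : ℂ) = ((nm v : ℕ) : ℂ) := rfl
  rw [e1, e2, e3]
  push_cast
  split_ifs with h
  · ring
  · ring

theorem LSeries_eq (V : HeightOneSpectrum (𝓞 K) → WeierstrassCurve (𝓞 K)) (s : ℂ) :
    LSeries V s = LL V s := tprod_congr fun v => factor_eq V s v

theorem continues_iff (E : WeierstrassCurve K) (hE : E.IsElliptic) (U : Set ℂ) (m : ℕ) :
    Continues E U m ↔ Cont E U m := by
  constructor
  · intro h
    obtain ⟨V, hV⟩ := Pool.Agent.R433.MD.exists_minimal E hE
    obtain ⟨Λ, hΛ, hL⟩ := h V ((minimalModels_iff E V).2 hV)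
    exact ⟨V, hV, Λ, hΛ, fun s hs => by rw [hL s hs, LSeries_eq]⟩
  · intro h V hV
    obtain ⟨Λ, hΛ, hL⟩ :=
      Pool.Agent.V5helper60.HW.cont_all hE h V ((minimalModels_iff E V).1 hV)
    exact ⟨Λ, hΛ, fun s hs => by rw [hL s hs, LSeries_eq]⟩

open Pool.Agent.V5helper60.HW (OfType Lrg)

theorem over_iff (E : WeierstrassCurve K) (hE : E.IsElliptic) (U : Set ℂ) (m : ℕ)
    (F : IntermediateField K (AlgebraicClosure K)) (hF : FiniteDimensional K F) :
    OfType (fun F _ _ _ => Cont (E.map (algebraMap K F)) U m) F ↔ ContinuesOver E U m F := by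
  constructor
  · rintro ⟨hn, h⟩ hn'
    exact (continues_iff _ inferInstance U m).2 h
  · intro h
    have hn : NumberField F := NumberField.of_module_finite K F
    exact ⟨hn, (continues_iff _ inferInstance U m).1 (h hn)⟩

end bridge

open Pool.Agent.V5helper60.HW (rep rep_eq_iff) in
/-- Let the `L`-series of the elliptic curve `E` over the number field `K` have no meromorphic
continuation to `U`.  There are an extension `M` of `K` in the algebraic closure, critical for the
continuation of the `L`-series of `E`, and a prime number `l` such that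

* all finite Galois extensions of `M` have `l`-hyperelementary groups;
* either `M` is the field fixed by an automorphism `σ` (and then, for every `N`, the automorphisms over
  the large finite extensions of `K` inside `M` act on `E[N]` as powers of `σ`), or there is a `k` such
  that the `l ^ k`-th power of the `L`-series continues to `U` over all large finite extensions inside `M`;
* for every `N ≥ 1` and all large finite extensions `F` inside `M` the automorphisms over `F` induce an
  `l`-hyperelementary group on `E[N]`;
* for all `N` prime to `l`, all `j` and all large `F` inside `M` the automorphisms over `F` which are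
  trivial on `E[N]` induce a cyclic group on `E[N ^ j]`;
* for all prime numbers `p` and all large `F` inside `M`, `E` has a subgroup of order `p` defined over
  `F`, or the automorphisms over an extension of `F` of degree at most two act on `E[p]` through a
  commutative group. -/
theorem result (K : Type) [Field K] [NumberField K] (E : WeierstrassCurve K) [E.IsElliptic]
    (U : Set ℂ) (h : ¬ Continues E U 1) :
    ∃ (M : IntermediateField K (AlgebraicClosure K)) (l : ℕ), l.Prime ∧
      Critical (ContinuesOver E U 1) M ∧ HyperelementaryExtensions l M ∧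
      ((∃ σ, Monogenic E σ M) ∨ ∃ k : ℕ, ForLarge M (ContinuesOver E U (l ^ k))) ∧
      (∀ n : ℕ, 1 ≤ n → ForLarge M (HyperelementaryOn E l n)) ∧
      (∀ n j : ℕ, 1 ≤ n → n.Coprime l → ForLarge M (CyclicOn E n j)) ∧
      ∀ p : ℕ, p.Prime → ForLarge M (ReducibleOrDihedral E p) := by
  have hE : E.IsElliptic := inferInstance
  rw [continues_iff E hE] at h
  obtain ⟨M, l, hl, ⟨h1, h2⟩, h3, h4, h5, h6, h7⟩ :=
    Pool.Agent.V5helper60.HW.crit_final E hE U h
  have hmono : ∀ {M : IntermediateField K (AlgebraicClosure K)}
      {P P' : IntermediateField K (AlgebraicClosure K) → Prop}, ForLarge M P →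
      (∀ F : IntermediateField K (AlgebraicClosure K), FiniteDimensional K F → P F → P' F) →
      ForLarge M P' := fun hP hPP => Pool.Agent.V5helper60.HW.Lrg.mono hP hPP
  refine ⟨M, l, hl, ⟨fun hc => h1 ?_, fun N hN => ?_⟩, ?_, ?_, ?_, ?_, ?_⟩
  · exact hmono hc fun F hF hQ => (over_iff E hE U 1 F hF).2 hQ
  · exact hmono (h2 N hN) fun F hF hQ => (over_iff E hE U 1 F hF).1 hQ
  · intro N _ _
    exact h3 N
  · rcases h4 with ⟨σ, hσ⟩ | ⟨k, hk⟩
    · exact Or.inl ⟨σ, hσ⟩
    · exact Or.inr ⟨k, hmono hk fun F hF hQ => (over_iff E hE U (l ^ k) F hF).1 hQ⟩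
  · intro n hn
    refine hmono (h5 n hn) fun F _ hF => ?_
    obtain ⟨hfin, -⟩ := Pool.Agent.V5helper60.HW.tor_finite (Ω := AlgebraicClosure K) E
      E.isUnit_Δ.ne_zero hn
    obtain ⟨c, hc, ⟨t, ht, ht'⟩, h8, h9⟩ := Pool.Agent.V5helper60.HW.hyp_lift _ _ hF
    refine ⟨c, hc, ⟨t, ht, (rep_eq_iff E n _ _).1 ht'⟩, fun g hg => ?_, fun g hg => ?_⟩
    · obtain ⟨i, hi⟩ := h8 g hg
      exact ⟨i, (rep_eq_iff E n _ _).1 hi⟩
    · obtain ⟨k, i, hi⟩ := h9 g hg
      exact ⟨k, i, (rep_eq_iff E n _ _).1 hi⟩
  · intro n j hn hnl
    refine hmono (h6 n j hn hnl) fun F _ hF => ?_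
    obtain ⟨c, hc, h8⟩ := Pool.Agent.V5helper60.HW.cyclic_lift _ _ hF
    refine ⟨c, hc.1, ?_, fun g hg hg' => ?_⟩
    · have h9 : rep E (Ω := AlgebraicClosure K) n c = rep E n 1 := by
        rw [map_one]
        exact hc.2
      exact (rep_eq_iff E n _ _).1 h9
    · have h9 : rep E (Ω := AlgebraicClosure K) n g = rep E n 1 := (rep_eq_iff E n _ _).2 hg'
      rw [map_one] at h9
      obtain ⟨i, hi⟩ := h8 g ⟨hg, h9⟩
      exact ⟨i, (rep_eq_iff E (n ^ j) _ _).1 hi⟩
  · intro p hp
    refine hmono (h7 p hp) fun F _ hF => ?_
    rcases hF with hF | ⟨F', h8, hfin, h9, h10⟩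
    · exact Or.inl hF
    · refine Or.inr ⟨F', h8, hfin, h9, fun σ hσ τ hτ P hP => ?_⟩
      have h11 := h10 σ hσ τ hτ P hP
      rw [← Pool.Agent.V5helper60.HW.act_mul, ← Pool.Agent.V5helper60.HW.act_mul] at h11
      exact h11

end Pool.Agent.Results.MP_0d9be2_nt.CriticalExtensions
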