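import Pool.Agent.V5helper60.HW.Final2

/-!
# Critical extensions for the powers of the `L`-series: the fixed field of one automorphism

Let `E` be an elliptic curve over a number field `K` such that no power `L(E/K, s) ^ m`, `m ≥ 1`, has a
meromorphic continuation to `U` (for instance `U = ℂ`).  Then there is an automorphism `σ` of the
algebraic closure of `K` whose fixed field `M` is CRITICAL: there are arbitrarily large finite extensions
`F` of `K` inside `M` such that no power of `L(E/F, s)` has a continuation, and for every field `N` larger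
than `M` (for instance the fixed field of a power of `σ`) some power of `L(E/F, s)` has a continuation for
all sufficiently large finite extensions `F` inside `N`.  For every `N` and all large `F` inside `M` the
group `Gal(F(E[N]) / F)` is cyclic, generated by the restriction of `σ`.

So, for any given `N`, it is enough to find a continuable power of the `L`-series of the curves over
number fields `F` for which `F(E[N])` is a cyclic extension of `F`.

The proof.  The property of `M` that no power continues, for arbitrarily large finite extensions inside `M`, is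
inherited by the unions of chains, so there are maximal fields `M` with this property.  Let `L / K` be
finite and Galois.  By the maximality of `M`, for all large `F` inside `M` some power continues over each
field `X` with `F < X ≤ F L`; so, if no power continues over `F`, Artin's induction theorem (in the form of
`Pool.Agent.R433.MD.gal_unit`, library) shows that `Gal(F L / F)` is cyclic.  By the compactness of the
Galois group the generators of the finite groups can be lifted to one automorphism `σ`.
-/

set_option autoImplicit false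

namespace Pool.Agent.Results.MP_0d9be2_nt.CriticalPowers

open NumberField IsDedekindDomain Filter Topology

open scoped Classical

/-- `W v` is, for every finite place `v`, an integral model of `E` with discriminant minimal at
`v`. -/
def MinimalModels {K : Type} [Field K] [NumberField K] (E : WeierstrassCurve K)
    (W : HeightOneSpectrum (𝓞 K) → WeierstrassCurve (𝓞 K)) : Prop :=
  ∀ v : HeightOneSpectrum (𝓞 K),
    (∃ C : WeierstrassCurve.VariableChange K, C • (W v).map (algebraMap (𝓞 K) K) = E) ∧
    ∀ W' : WeierstrassCurve (𝓞 K),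
      (∃ C : WeierstrassCurve.VariableChange K, C • W'.map (algebraMap (𝓞 K) K) = E) →
      ∀ n : ℕ, (W v).Δ ∈ v.asIdeal ^ n → W'.Δ ∈ v.asIdeal ^ n

/-- The Euler factor at `v`, `(1 - a_v Nv^{-s} + Nv^{1-2s})⁻¹` if the reduction at `v` is good and
`(1 - a_v Nv^{-s})⁻¹` if it is bad, where `a_v` is `Nv` minus the number of affine points of the
reduction of `W v`. -/
noncomputable def localFactor {K : Type} [Field K] [NumberField K]
    (W : HeightOneSpectrum (𝓞 K) → WeierstrassCurve (𝓞 K)) (v : HeightOneSpectrum (𝓞 K))
    (s : ℂ) : ℂ :=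
  (1 - ((Ideal.absNorm v.asIdeal : ℂ)
        - (Nat.card {xy : (𝓞 K ⧸ v.asIdeal) × (𝓞 K ⧸ v.asIdeal) //
            ((W v).map (Ideal.Quotient.mk v.asIdeal)).toAffine.Equation xy.1 xy.2} : ℂ))
        * (Ideal.absNorm v.asIdeal : ℂ) ^ (-s)
    + (if (W v).Δ ∈ v.asIdeal then 0 else (Ideal.absNorm v.asIdeal : ℂ))
        * (Ideal.absNorm v.asIdeal : ℂ) ^ (-2 * s))⁻¹

/-- The `L`-series, as the Euler product over all finite places. -/
noncomputable def LSeries {K : Type} [Field K] [NumberField K]
    (W : HeightOneSpectrum (𝓞 K) → WeierstrassCurve (𝓞 K)) (s : ℂ) : ℂ :=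
  ∏' v : HeightOneSpectrum (𝓞 K), localFactor W v s

/-- A power `L(E/K, s) ^ m`, `m ≥ 1`, of the `L`-series of `E` has a meromorphic continuation to `U`. -/
def PowerContinues {K : Type} [Field K] [NumberField K] (E : WeierstrassCurve K) (U : Set ℂ) : Prop :=
  ∃ m : ℕ, 1 ≤ m ∧ ∀ W : HeightOneSpectrum (𝓞 K) → WeierstrassCurve (𝓞 K), MinimalModels E W →
    ∃ Λ : ℂ → ℂ, MeromorphicOn Λ U ∧ ∀ s : ℂ, 3 / 2 < s.re → Λ s = LSeries W s ^ m

section
variable {K Ω : Type} [Field K] [Field Ω] [Algebra K Ω]

/-- `P F` holds for all sufficiently large finite extensions `F` of `K` inside `M`. -/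
def ForLarge (M : IntermediateField K Ω) (P : IntermediateField K Ω → Prop) : Prop :=
  ∃ F₁ : IntermediateField K Ω, F₁ ≤ M ∧ FiniteDimensional K F₁ ∧
    ∀ F, F₁ ≤ F → F ≤ M → FiniteDimensional K F → P F

/-- The extension `M` of `K` is critical for the property `Q` of the finite extensions of `K`: there
are arbitrarily large finite extensions inside `M` without the property `Q`, and for every larger field
`N` all sufficiently large finite extensions inside `N` have the property `Q`. -/
def Critical (Q : IntermediateField K Ω → Prop) (M : IntermediateField K Ω) : Prop :=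
  ¬ ForLarge M Q ∧ ∀ N, M < N → ForLarge N Q

end

/-- A power of the `L`-series of `E` over the finite extension `F` of `K` has a meromorphic
continuation to `U`. -/
def PowerContinuesOver {K : Type} [Field K] [NumberField K] (E : WeierstrassCurve K) (U : Set ℂ)
    (F : IntermediateField K (AlgebraicClosure K)) : Prop :=
  ∀ _ : NumberField F, PowerContinues (E.map (algebraMap K F)) U

section
variable {K : Type} [Field K]

/-- The group of the points of `E` over the algebraic closure of `K`. -/
abbrev Points (E : WeierstrassCurve K) : Type :=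
  (E.baseChange (AlgebraicClosure K)).toAffine.Point

/-- The action of an automorphism of the algebraic closure on the points. -/
noncomputable def act (E : WeierstrassCurve K) (σ : AlgebraicClosure K ≃ₐ[K] AlgebraicClosure K) :
    Points E →+ Points E :=
  WeierstrassCurve.Affine.Point.map (W' := E.toAffine)
    (σ : AlgebraicClosure K →ₐ[K] AlgebraicClosure K)

/-- The group of the points whose order divides `n`. -/
noncomputable def torsion (E : WeierstrassCurve K) (n : ℕ) : AddSubgroup (Points E) where
  carrier := {P | n • P = 0}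
  add_mem' := by
    intro P Q hP hQ
    change n • (P + Q) = 0
    rw [nsmul_add, (hP : n • P = 0), (hQ : n • Q = 0), add_zero]
  zero_mem' := nsmul_zero n
  neg_mem' := by
    intro P hP
    change n • (-P) = 0
    rw [neg_nsmul, (hP : n • P = 0), neg_zero]

end

section bridge
variable {K : Type} [Field K] [NumberField K]

open Pool.Agent.H341R2.EC (IsModel IsMinAt red aff trc dlt)
open Pool.Agent.R433.MD (lf LL Cont)
open Pool.Agent.H921R2.TatePole (nm two_le_nm)

omit [NumberField K] in
theorem isModel_iff (E : WeierstrassCurve K) (W : WeierstrassCurve (𝓞 K)) :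
    (∃ C : WeierstrassCurve.VariableChange K, C • W.map (algebraMap (𝓞 K) K) = E) ↔
      IsModel E W := by
  constructor
  · rintro ⟨C, hC⟩
    exact ⟨C⁻¹, by rw [← hC, inv_smul_smul]⟩
  · rintro ⟨C, hC⟩
    exact ⟨C⁻¹, by rw [← hC, inv_smul_smul]⟩

theorem minimalModels_iff (E : WeierstrassCurve K)
    (V : HeightOneSpectrum (𝓞 K) → WeierstrassCurve (𝓞 K)) :
    MinimalModels E V ↔ ∀ v, IsMinAt E v (V v) := by
  unfold MinimalModels IsMinAt
  simp only [isModel_iff]

theorem factor_eq (V : HeightOneSpectrum (𝓞 K) → WeierstrassCurve (𝓞 K)) (s : ℂ)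
    (v : HeightOneSpectrum (𝓞 K)) : localFactor V v s = (lf V s v)⁻¹ := by
  unfold localFactor
  congr 1
  unfold lf trc dlt
  have h0 : ((nm v : ℕ) : ℂ) ≠ 0 := by
    have := two_le_nm v
    exact_mod_cast (by omega : nm v ≠ 0)
  have e1 : Nat.card {xy : (𝓞 K ⧸ v.asIdeal) × (𝓞 K ⧸ v.asIdeal) //
      ((V v).map (Ideal.Quotient.mk v.asIdeal)).toAffine.Equation xy.1 xy.2} =
      aff (red v (V v)) := by
    unfold aff red
    refine Nat.card_congr (Equiv.subtypeEquivRight fun xy => ?_)
    rw [WeierstrassCurve.Affine.equation_iff]
  have e2 : ((nm v : ℕ) : ℂ) ^ (1 - 2 * s) = ((nm v : ℕ) : ℂ) * ((nm v : ℕ) : ℂ) ^ (-2 * s) := by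
    rw [sub_eq_add_neg, Complex.cpow_add _ _ h0, Complex.cpow_one]
    congr 2
    ring
  have e3 : (Ideal.absNorm v.asIdeal : ℂ) = ((nm v : ℕ) : ℂ) := rfl
  rw [e1, e2, e3]
  push_cast
  split_ifs with h
  · ring
  · ring

theorem LSeries_eq (V : HeightOneSpectrum (𝓞 K) → WeierstrassCurve (𝓞 K)) (s : ℂ) :
    LSeries V s = LL V s := tprod_congr fun v => factor_eq V s v

theorem powerContinues_iff (E : WeierstrassCurve K) (hE : E.IsElliptic) (U : Set ℂ) :
    PowerContinues E U ↔ Pool.Agent.V5helper60.HW.ContP E U := by
  constructor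
  · rintro ⟨m, hm, h⟩
    obtain ⟨V, hV⟩ := Pool.Agent.R433.MD.exists_minimal E hE
    obtain ⟨Λ, hΛ, hL⟩ := h V ((minimalModels_iff E V).2 hV)
    exact ⟨m, by omega, V, hV, Λ, hΛ, fun s hs => by rw [hL s hs, LSeries_eq]⟩
  · rintro ⟨m, hm, h⟩
    refine ⟨m, by omega, fun V hV => ?_⟩
    obtain ⟨Λ, hΛ, hL⟩ :=
      Pool.Agent.V5helper60.HW.cont_all hE h V ((minimalModels_iff E V).1 hV)
    exact ⟨Λ, hΛ, fun s hs => by rw [hL s hs, LSeries_eq]⟩

open Pool.Agent.V5helper60.HW (OfType ContP)

theorem over_iff (E : WeierstrassCurve K) (hE : E.IsElliptic) (U : Set ℂ)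
    (F : IntermediateField K (AlgebraicClosure K)) (hF : FiniteDimensional K F) :
    OfType (fun F _ _ _ => ContP (E.map (algebraMap K F)) U) F ↔ PowerContinuesOver E U F := by
  constructor
  · rintro ⟨hn, h⟩ hn'
    exact (powerContinues_iff _ inferInstance U).2 h
  · intro h
    have hn : NumberField F := NumberField.of_module_finite K F
    exact ⟨hn, (powerContinues_iff _ inferInstance U).1 (h hn)⟩

end bridge

/-- Let no power `L(E/K, s) ^ m`, `m ≥ 1`, of the `L`-series of the elliptic curve `E` over the number
field `K` have a meromorphic continuation to `U`.  There is an automorphism `σ` of the algebraic closure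
of `K` whose fixed field `M` is critical for the continuation of a power of the `L`-series of `E`; and for
all `N ≥ 1` every automorphism over a sufficiently large finite extension of `K` inside `M` acts on `E[N]`
as a power of `σ`. -/
theorem result (K : Type) [Field K] [NumberField K] (E : WeierstrassCurve K) [E.IsElliptic]
    (U : Set ℂ) (h : ¬ PowerContinues E U) :
    ∃ (M : IntermediateField K (AlgebraicClosure K))
      (σ : AlgebraicClosure K ≃ₐ[K] AlgebraicClosure K),
      Critical (PowerContinuesOver E U) M ∧ (∀ x, x ∈ M ↔ σ x = x) ∧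
      ∀ N : ℕ, 1 ≤ N → ForLarge M fun F => ∀ τ ∈ F.fixingSubgroup, ∃ i : ℤ,
        ∀ P ∈ torsion E N, act E τ P = act E (σ ^ i) P := by
  have hE : E.IsElliptic := inferInstance
  rw [powerContinues_iff E hE] at h
  obtain ⟨M, σ, ⟨h1, h2⟩, h3, h4⟩ := Pool.Agent.V5helper60.HW.critP_final E hE U h
  have hmono : ∀ {M : IntermediateField K (AlgebraicClosure K)}
      {P P' : IntermediateField K (AlgebraicClosure K) → Prop}, ForLarge M P →
      (∀ F : IntermediateField K (AlgebraicClosure K), FiniteDimensional K F → P F → P' F) →
      ForLarge M P' := fun hP hPP => Pool.Agent.V5helper60.HW.Lrg.mono hP hPP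
  refine ⟨M, σ, ⟨fun hc => h1 ?_, fun N hN => ?_⟩, h3, fun N hN => h4 N hN⟩
  · exact hmono hc fun F hF hQ => (over_iff E hE U F hF).2 hQ
  · exact hmono (h2 N hN) fun F hF hQ => (over_iff E hE U F hF).1 hQ

end Pool.Agent.Results.MP_0d9be2_nt.CriticalPowers
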