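import Pool.Agent.V5helper57.Zet.Fin

/-!
# The Euler products of `L(E, s)` are stable on `Re s > 1` for almost all elliptic curves over any number field

Let `K` be a number field. The Euler product of the `L`-series of an elliptic curve `E` over `K` converges absolutely only for
`Re s > 3 / 2`. One expects that `L(E, s)` is an entire function without zeros in `Re s > 1`, and then the Euler product, taken over
the places of norm at most `y`, converges to `L(E, s)` for `y → ∞`, uniformly on the compact subsets of `Re s > 1`. Conversely, such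
a convergence implies that `L(E, s)` has a holomorphic continuation without zeros to `Re s > 1`. It is not known for any curve, not
even in a half-plane `Re s > σ` with `σ < 3 / 2`. We prove that it is true, as far as it can be seen, for almost all curves:
for every `σ > 1` and every `ε > 0` there is a `y₀` such that for all but a proportion `ε` of the curves with coefficients of size `H`
the Euler products over the places of norm at most `y` agree up to a relative error `ε` for all `y` with `y₀ ≤ y ≤ H ^ (1 / 7)`,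
uniformly for `Re s ≥ σ`, `|s| ≤ R`. There are all Euler factors in these products, also those at the places of bad reduction.

The same holds for the families of the curves with one or two marked integral points.

The first moments of the local data are from the starting files (`Q282.NF`), as are the moment estimates on boxes
(`Pool.Agent.X280`), and the facts about minimal models (`Pool.Agent.H341R2.EC`).
-/

set_option autoImplicit false

namespace Pool.Agent.Results.MP_0d9be2_nt.StableEulerProducts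

open NumberField IsDedekindDomain

section

variable {K : Type} [Field K] [NumberField K]

/-- `W v` is, for every finite place `v`, an integral model of `E` with discriminant minimal at `v`. -/
def MinimalModels (E : WeierstrassCurve K) (W : HeightOneSpectrum (𝓞 K) → WeierstrassCurve (𝓞 K)) : Prop :=
  ∀ v : HeightOneSpectrum (𝓞 K),
    (∃ C : WeierstrassCurve.VariableChange K, C • (W v).map (algebraMap (𝓞 K) K) = E) ∧
    ∀ W' : WeierstrassCurve (𝓞 K), (∃ C : WeierstrassCurve.VariableChange K, C • W'.map (algebraMap (𝓞 K) K) = E) →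
      ∀ n : ℕ, (W v).Δ ∈ v.asIdeal ^ n → W'.Δ ∈ v.asIdeal ^ n

open Classical in
/-- The Euler factor at `v`: `(1 - a_v Nv^{-s} + Nv^{1-2s})⁻¹` if the reduction at `v` is good and `(1 - a_v Nv^{-s})⁻¹` if it is
bad, where `a_v` is `Nv` minus the number of affine points of the reduction of `W v`. -/
noncomputable def localFactor (W : HeightOneSpectrum (𝓞 K) → WeierstrassCurve (𝓞 K)) (v : HeightOneSpectrum (𝓞 K)) (s : ℂ) : ℂ :=
  (1 - ((Ideal.absNorm v.asIdeal : ℂ) - (Nat.card {xy : (𝓞 K ⧸ v.asIdeal) × (𝓞 K ⧸ v.asIdeal) //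
            ((W v).map (Ideal.Quotient.mk v.asIdeal)).toAffine.Equation xy.1 xy.2} : ℂ)) * (Ideal.absNorm v.asIdeal : ℂ) ^ (-s)
    + (if (W v).Δ ∈ v.asIdeal then 0 else (Ideal.absNorm v.asIdeal : ℂ)) * (Ideal.absNorm v.asIdeal : ℂ) ^ (-2 * s))⁻¹

/-- The product of the Euler factors of the `L`-series over all finite places of norm at most `y`. -/
noncomputable def product (W : HeightOneSpectrum (𝓞 K) → WeierstrassCurve (𝓞 K)) (y : ℝ) (s : ℂ) : ℂ :=
  ∏ᶠ v ∈ {v : HeightOneSpectrum (𝓞 K) | (Ideal.absNorm v.asIdeal : ℝ) ≤ y}, localFactor W v s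

/-- For `Re s ≥ σ`, `|s| ≤ R` the Euler products of `L(E, s)` over the places of norm at most `y`, for all `y` with `y₀ ≤ y` and
`y ^ 7 ≤ H`, agree up to the relative error `ε`. -/
def Stable (E : WeierstrassCurve K) (σ R ε y₀ H : ℝ) : Prop :=
  ∀ W : HeightOneSpectrum (𝓞 K) → WeierstrassCurve (𝓞 K), MinimalModels E W → ∀ s : ℂ, σ ≤ s.re → ‖s‖ ≤ R →
    ∀ y' y : ℝ, y₀ ≤ y' → y' ≤ y → y ^ 7 ≤ H → ‖product W y s - product W y' s‖ ≤ ε * ‖product W y' s‖

/-- The curve `y² = x³ + b x² + c x + d`, `C = (b, c, d)`. -/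
def curve (C : 𝓞 K × 𝓞 K × 𝓞 K) : WeierstrassCurve K :=
  { a₁ := 0, a₂ := (C.1 : K), a₃ := 0, a₄ := (C.2.1 : K), a₆ := (C.2.2 : K) }

end

/-- The coefficients `(b, c, d)` of the cubic polynomials `x³ + b x² + c x + d` of the families: all polynomials (`r = 0`),
`(x - t₀) (x² + t₂ x + t₃) + t₁²` (`r = 1`), and `(x - t₀) (x - t₁) (x - t₂) + (t₃ x + t₄)²` (`r = 2`). -/
def family {R : Type} [CommRing R] : (r : ℕ) → (Fin (r + 3) → R) → R × R × R
  | 0, t => (t 0, t 1, t 2)
  | 1, t => (t 2 - t 0, t 3 - t 0 * t 2, t 1 ^ 2 - t 0 * t 3)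
  | _ + 2, t => (t 3 ^ 2 - (t 0 + t 1 + t 2), t 0 * t 1 + t 0 * t 2 + t 1 * t 2 + 2 * t 3 * t 4, t 4 ^ 2 - t 0 * t 1 * t 2)

open Classical in
/-- The proportion of the set `S` among the integral matrices `c` with `|c_ij| ≤ H`. -/
noncomputable def proportion {m n : ℕ} (H : ℕ) (S : Set (Fin m × Fin n → ℤ)) : ℝ :=
  (((Fintype.piFinset fun _ : Fin m × Fin n => Finset.Icc (-(H : ℤ)) H).filter (· ∈ S)).card : ℝ) / (2 * H + 1 : ℝ) ^ (m * n)

open Pool.Agent.V5helper57.Zet Q282.NF

/-- **The Euler products of almost all elliptic curves over a number field are stable to the right of the critical line**: for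
`r = 0, 1, 2`, for any integral basis `w` of `K`, any `σ > 1`, `R` and `ε > 0` there is a `y₀` such that for all `H`, for all but a
proportion `ε` of the integral matrices `c` with `|c_ij| ≤ H`, the Euler products over the places of norm at most `y` of the
`L`-series of the curve of the family number `r` with the parameters `t_i = ∑ c_ij w_j` agree up to the relative error `ε` for all
`y₀ ≤ y ≤ H ^ (1 / 7)`, uniformly for `Re s ≥ σ`, `|s| ≤ R`. -/
theorem result (K : Type) [Field K] [NumberField K] (r : ℕ) (hr : r ≤ 2) (w : Fin (Module.finrank ℚ K) → 𝓞 K)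
    (hw : ∀ x : 𝓞 K, ∃ a : Fin (Module.finrank ℚ K) → ℤ, x = ∑ j, (a j : 𝓞 K) * w j) (σ R ε : ℝ) (hσ : 1 < σ) (hε : 0 < ε) :
    ∃ y₀ : ℝ, ∀ H : ℕ, proportion H {c : Fin (r + 3) × Fin (Module.finrank ℚ K) → ℤ |
      ¬ Stable (curve (family r (fun i => ∑ j, (c (i, j) : 𝓞 K) * w j))) σ R ε y₀ H} ≤ ε := by
  classical
  obtain ⟨δ, hδ⟩ : ∃ δ : ℝ, δ = min (ε / 2) 1 := ⟨_, rfl⟩
  have hδ0 : 0 < δ := by rw [hδ]; positivity
  have hδ1 : δ ≤ 1 := by rw [hδ]; exact min_le_right _ _
  have hδ2 : 2 * δ ≤ ε := by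
    have : δ ≤ ε / 2 := by rw [hδ]; exact min_le_left _ _
    linarith
  obtain ⟨y0, hy0, h⟩ := stable (loc_family (K := K) r hr) (rare_family (K := K) r hr) w hw hσ (R := max R 0) (δ := δ)
    (le_max_right _ _) hδ0
  refine ⟨y0, fun H => ?_⟩
  obtain ⟨M, hM0, hM1, hM2⟩ := h H
  have h1 := prop_le (S := {c : Fin (r + 3) × Fin (Module.finrank ℚ K) → ℤ |
      ¬ Stable (curve (family r (fun i => ∑ j, (c (i, j) : 𝓞 K) * w j))) σ R ε y0 H}) hM0 hM1 ?_
  · unfold proportion
    rw [Fintype.card_prod, Fintype.card_fin, Fintype.card_fin] at h1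
    exact h1.trans (by linarith)
  · intro c hc
    by_contra hlt
    rw [not_le] at hlt
    apply hc
    intro W hW s hs hsR y' y hy' hyy hyH
    have hy'0 : 0 ≤ y' := le_trans (Nat.cast_nonneg _) hy'
    have hlf : ∀ v s, localFactor W v s = Pool.Agent.W350.EdgeEC.lf W v s := by
      intro v s
      have h1 : (Nat.card {xy : (𝓞 K ⧸ v.asIdeal) × (𝓞 K ⧸ v.asIdeal) //
              ((W v).map (Ideal.Quotient.mk v.asIdeal)).toAffine.Equation xy.1 xy.2}) =
          Pool.Agent.H341R2.EC.aff (Pool.Agent.H341R2.EC.red v (W v)) := by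
        unfold Pool.Agent.H341R2.EC.aff Pool.Agent.H341R2.EC.red
        refine Nat.card_congr (Equiv.subtypeEquivRight fun q => ?_)
        exact WeierstrassCurve.Affine.equation_iff ..
      unfold localFactor Pool.Agent.W350.EdgeEC.lf Pool.Agent.H341R2.EC.trc
      rw [h1]
      unfold Pool.Agent.H921R2.TatePole.nm
      push_cast
      rfl
    have hfam : family r (fun i => ∑ j, (c (i, j) : 𝓞 K) * w j) = Q282.NF.family r (combine w (fun i j => c (i, j))) := by
      match r, c with
      | 0, _ => rfl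
      | 1, _ => rfl
      | _ + 2, _ => rfl
    have hW' : ∀ v, Pool.Agent.H341R2.EC.IsMinAt (Q282.NF.curve (Q282.NF.family r (combine w (fun i j => c (i, j))))) v (W v) := by
      intro v
      have e : Q282.NF.curve (Q282.NF.family r (combine w (fun i j => c (i, j)))) =
          curve (family r (fun i => ∑ j, (c (i, j) : 𝓞 K) * w j)) := by
        rw [← hfam]
        rfl
      rw [e]
      refine ⟨?_, ?_⟩
      · obtain ⟨C, hC⟩ := (hW v).1
        refine ⟨C⁻¹, ?_⟩
        rw [← hC, smul_smul, inv_mul_cancel, one_smul]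
      · rintro V ⟨C, hC⟩ n hn
        refine (hW v).2 V ⟨C⁻¹, ?_⟩ n hn
        rw [← hC, smul_smul, inv_mul_cancel, one_smul]
    have hY7 : ⌊y⌋₊ ^ 7 ≤ H := by
      have h2 : ((⌊y⌋₊ : ℕ) : ℝ) ≤ y := Nat.floor_le (hy'0.trans hyy)
      have h3 : ((⌊y⌋₊ : ℕ) : ℝ) ^ 7 ≤ y ^ 7 := pow_le_pow_left₀ (by positivity) h2 7
      exact_mod_cast h3.trans hyH
    obtain ⟨E, hE, hE'⟩ := hM2 c hlt W hW' s hs (hsR.trans (le_max_left _ _)) ⌊y'⌋₊ ⌊y⌋₊ (Nat.le_floor hy')
      (Nat.floor_le_floor hyy) hY7
    have h4 := prod_near (fun v => Pool.Agent.W350.EdgeEC.lf W v s) hy'0 hyy hδ1 hE hE'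
    have h5 : ∀ z : ℝ, product W z s = ∏ᶠ v ∈ {v : HeightOneSpectrum (𝓞 K) | (Ideal.absNorm v.asIdeal : ℝ) ≤ z},
        Pool.Agent.W350.EdgeEC.lf W v s := by
      intro z
      unfold product
      exact finprod_congr fun v => finprod_congr fun _ => hlf v s
    rw [h5, h5]
    exact h4.trans (mul_le_mul_of_nonneg_right hδ2 (norm_nonneg _))

end Pool.Agent.Results.MP_0d9be2_nt.StableEulerProducts
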