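import Pool.Agent.V5helper57.Zet.Fin
import Pool.Agent.V5helper57.Zet.Twi

/-!
# For every elliptic curve over a number field, the Euler products of almost all quadratic twists are stable on `Re s > 1`

Let `E` be any elliptic curve over any number field `K`, and `E_d` its quadratic twist by the integer `d ≠ 0` of `K`. The Euler
product of `L(E_d, s)` converges absolutely for `Re s > 3 / 2`, and its convergence is not known in any half-plane `Re s > σ` with
`σ < 3 / 2`. Convergence on `Re s > 1`, with small relative errors, would give a holomorphic continuation of `L(E_d, s)` without zeros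
to this half-plane, as expected. We prove that this convergence is true, as far as it can be seen, for almost all twists of `E`: for
every `σ > 1` and every `ε > 0` there is a `y₀` such that for all but a proportion `ε` of the `d` with coordinates of absolute value
at most `H` with respect to an integral basis, the Euler products over the places of norm at most `y` agree up to a relative error
`ε` for all `y` with `y₀ ≤ y ≤ H ^ (1 / 7)`, uniformly for `Re s ≥ σ`, `|s| ≤ R`. There are all Euler factors in these products, also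
those at the places of bad reduction.

The moment estimates on boxes are from the starting files (`Pool.Agent.X280`), as are the facts about twists and minimal models
(`Pool.Agent.H341R2.EC`).
-/

set_option autoImplicit false

namespace Pool.Agent.Results.MP_0d9be2_nt.StableTwists

open NumberField IsDedekindDomain

section

variable {K : Type} [Field K] [NumberField K]

/-- `W v` is, for every finite place `v`, an integral model of `E` with discriminant minimal at `v`. -/
def MinimalModels (E : WeierstrassCurve K) (W : HeightOneSpectrum (𝓞 K) → WeierstrassCurve (𝓞 K)) : Prop :=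
  ∀ v : HeightOneSpectrum (𝓞 K),
    (∃ C : WeierstrassCurve.VariableChange K, C • (W v).map (algebraMap (𝓞 K) K) = E) ∧
    ∀ W' : WeierstrassCurve (𝓞 K), (∃ C : WeierstrassCurve.VariableChange K, C • W'.map (algebraMap (𝓞 K) K) = E) →
      ∀ n : ℕ, (W v).Δ ∈ v.asIdeal ^ n → W'.Δ ∈ v.asIdeal ^ n

open Classical in
/-- The Euler factor at `v`: `(1 - a_v Nv^{-s} + Nv^{1-2s})⁻¹` if the reduction at `v` is good and `(1 - a_v Nv^{-s})⁻¹` if it is
bad, where `a_v` is `Nv` minus the number of affine points of the reduction of `W v`. -/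
noncomputable def localFactor (W : HeightOneSpectrum (𝓞 K) → WeierstrassCurve (𝓞 K)) (v : HeightOneSpectrum (𝓞 K)) (s : ℂ) : ℂ :=
  (1 - ((Ideal.absNorm v.asIdeal : ℂ) - (Nat.card {xy : (𝓞 K ⧸ v.asIdeal) × (𝓞 K ⧸ v.asIdeal) //
            ((W v).map (Ideal.Quotient.mk v.asIdeal)).toAffine.Equation xy.1 xy.2} : ℂ)) * (Ideal.absNorm v.asIdeal : ℂ) ^ (-s)
    + (if (W v).Δ ∈ v.asIdeal then 0 else (Ideal.absNorm v.asIdeal : ℂ)) * (Ideal.absNorm v.asIdeal : ℂ) ^ (-2 * s))⁻¹

/-- The product of the Euler factors of the `L`-series over all finite places of norm at most `y`. -/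
noncomputable def product (W : HeightOneSpectrum (𝓞 K) → WeierstrassCurve (𝓞 K)) (y : ℝ) (s : ℂ) : ℂ :=
  ∏ᶠ v ∈ {v : HeightOneSpectrum (𝓞 K) | (Ideal.absNorm v.asIdeal : ℝ) ≤ y}, localFactor W v s

/-- For `Re s ≥ σ`, `|s| ≤ R` the Euler products of `L(E, s)` over the places of norm at most `y`, for all `y` with `y₀ ≤ y` and
`y ^ 7 ≤ H`, agree up to the relative error `ε`. -/
def Stable (E : WeierstrassCurve K) (σ R ε y₀ H : ℝ) : Prop :=
  ∀ W : HeightOneSpectrum (𝓞 K) → WeierstrassCurve (𝓞 K), MinimalModels E W → ∀ s : ℂ, σ ≤ s.re → ‖s‖ ≤ R →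
    ∀ y' y : ℝ, y₀ ≤ y' → y' ≤ y → y ^ 7 ≤ H → ‖product W y s - product W y' s‖ ≤ ε * ‖product W y' s‖

end

/-- The quadratic twist `y² = x³ - 27 d² c₄ x - 54 d³ c₆` of `E` by `d`. -/
noncomputable def twist {K : Type} [Field K] (E : WeierstrassCurve K) (d : K) : WeierstrassCurve K :=
  { a₁ := 0, a₂ := 0, a₃ := 0, a₄ := -27 * d ^ 2 * E.c₄, a₆ := -54 * d ^ 3 * E.c₆ }

open Classical in
/-- The proportion of the set `S` among the integral vectors `c` with `|c_j| ≤ H`. -/
noncomputable def proportion {n : ℕ} (H : ℕ) (S : Set (Fin n → ℤ)) : ℝ :=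
  (((Fintype.piFinset fun _ : Fin n => Finset.Icc (-(H : ℤ)) H).filter (· ∈ S)).card : ℝ) / (2 * H + 1 : ℝ) ^ n

open Pool.Agent.V5helper57.Zet Q282.NF

open Classical in
theorem card_reindex {n : ℕ} (H : ℕ) (S : Set (Fin n → ℤ)) :
    ((Fintype.piFinset fun _ : Fin n => Finset.Icc (-(H : ℤ)) H).filter (· ∈ S)).card ≤
      ((Fintype.piFinset fun _ : Fin 1 × Fin n => Finset.Icc (-(H : ℤ)) H).filter
        (· ∈ {c : Fin 1 × Fin n → ℤ | (fun j => c (0, j)) ∈ S})).card := by
  refine Finset.card_le_card_of_injOn (fun c ij => c ij.2) (fun c hc => ?_) (fun c _ c' _ h => ?_)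
  · rw [Finset.mem_coe, Finset.mem_filter, Fintype.mem_piFinset] at hc ⊢
    exact ⟨fun ij => hc.1 ij.2, hc.2⟩
  · funext j
    exact congrFun h (0, j)

/-- **The Euler products of almost all quadratic twists of an elliptic curve over a number field are stable to the right of the
critical line**: for any elliptic curve `E` over `K`, any integral basis `w` of `K`, any `σ > 1`, `R` and `ε > 0` there is a `y₀`
such that for all `H`, for all but a proportion `ε` of the integral vectors `c` with `|c_j| ≤ H`, the Euler products over the places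
of norm at most `y` of the `L`-series of the quadratic twist of `E` by `d = ∑ c_j w_j` agree up to the relative error `ε` for all
`y₀ ≤ y ≤ H ^ (1 / 7)`, uniformly for `Re s ≥ σ`, `|s| ≤ R`. -/
theorem result (K : Type) [Field K] [NumberField K] (E : WeierstrassCurve K) [E.IsElliptic] (w : Fin (Module.finrank ℚ K) → 𝓞 K)
    (hw : ∀ x : 𝓞 K, ∃ a : Fin (Module.finrank ℚ K) → ℤ, x = ∑ j, (a j : 𝓞 K) * w j) (σ R ε : ℝ) (hσ : 1 < σ) (hε : 0 < ε) :
    ∃ y₀ : ℝ, ∀ H : ℕ, proportion H {c : Fin (Module.finrank ℚ K) → ℤ |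
      ¬ Stable (twist E ((∑ j, (c j : 𝓞 K) * w j : 𝓞 K) : K)) σ R ε y₀ H} ≤ ε := by
  classical
  obtain ⟨δ, hδ⟩ : ∃ δ : ℝ, δ = min (ε / 2) 1 := ⟨_, rfl⟩
  have hδ0 : 0 < δ := by rw [hδ]; positivity
  have hδ1 : δ ≤ 1 := by rw [hδ]; exact min_le_right _ _
  have hδ2 : 2 * δ ≤ ε := by
    have : δ ≤ ε / 2 := by rw [hδ]; exact min_le_left _ _
    linarith
  obtain ⟨y0, hy0, h⟩ := stable_tw E inferInstance w hw hσ (R := max R 0) (δ := δ) (le_max_right _ _) hδ0
  refine ⟨y0, fun H => ?_⟩
  obtain ⟨M, hM0, hM1, hM2⟩ := h H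
  obtain ⟨S, hS⟩ : ∃ S : Set (Fin (Module.finrank ℚ K) → ℤ), S = {c : Fin (Module.finrank ℚ K) → ℤ |
      ¬ Stable (twist E ((∑ j, (c j : 𝓞 K) * w j : 𝓞 K) : K)) σ R ε y0 H} := ⟨_, rfl⟩
  rw [← hS]
  have h1 := prop_le (S := {c : Fin 1 × Fin (Module.finrank ℚ K) → ℤ | (fun j => c (0, j)) ∈ S}) hM0 hM1 ?_
  · unfold proportion
    rw [Fintype.card_prod, Fintype.card_fin, Fintype.card_fin, one_mul] at h1
    refine le_trans (div_le_div_of_nonneg_right ?_ (by positivity)) (h1.trans (by linarith))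
    exact_mod_cast card_reindex H S
  · intro c hc
    by_contra hlt
    rw [not_le] at hlt
    rw [Set.mem_ofPred_eq, hS, Set.mem_ofPred_eq] at hc
    apply hc
    intro W hW s hs hsR y' y hy' hyy hyH
    have hy'0 : 0 ≤ y' := le_trans (Nat.cast_nonneg _) hy'
    have hlf : ∀ v s, localFactor W v s = Pool.Agent.W350.EdgeEC.lf W v s := by
      intro v s
      have h1 : (Nat.card {xy : (𝓞 K ⧸ v.asIdeal) × (𝓞 K ⧸ v.asIdeal) //
              ((W v).map (Ideal.Quotient.mk v.asIdeal)).toAffine.Equation xy.1 xy.2}) =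
          Pool.Agent.H341R2.EC.aff (Pool.Agent.H341R2.EC.red v (W v)) := by
        unfold Pool.Agent.H341R2.EC.aff Pool.Agent.H341R2.EC.red
        refine Nat.card_congr (Equiv.subtypeEquivRight fun q => ?_)
        exact WeierstrassCurve.Affine.equation_iff ..
      unfold localFactor Pool.Agent.W350.EdgeEC.lf Pool.Agent.H341R2.EC.trc
      rw [h1]
      unfold Pool.Agent.H921R2.TatePole.nm
      push_cast
      rfl
    have hW' : ∀ v, Pool.Agent.H341R2.EC.IsMinAt (Pool.Agent.H341R2.EC.twist E ((combine w (fun i j => c (i, j)) 0 : 𝓞 K) : K)) v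
        (W v) := by
      intro v
      have e : Pool.Agent.H341R2.EC.twist E ((combine w (fun i j => c (i, j)) 0 : 𝓞 K) : K) =
          twist E ((∑ j, (c (0, j) : 𝓞 K) * w j : 𝓞 K) : K) := rfl
      rw [e]
      refine ⟨?_, ?_⟩
      · obtain ⟨C, hC⟩ := (hW v).1
        refine ⟨C⁻¹, ?_⟩
        rw [← hC, smul_smul, inv_mul_cancel, one_smul]
      · rintro V ⟨C, hC⟩ n hn
        refine (hW v).2 V ⟨C⁻¹, ?_⟩ n hn
        rw [← hC, smul_smul, inv_mul_cancel, one_smul]
    have hY7 : ⌊y⌋₊ ^ 7 ≤ H := by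
      have h2 : ((⌊y⌋₊ : ℕ) : ℝ) ≤ y := Nat.floor_le (hy'0.trans hyy)
      have h3 : ((⌊y⌋₊ : ℕ) : ℝ) ^ 7 ≤ y ^ 7 := pow_le_pow_left₀ (by positivity) h2 7
      exact_mod_cast h3.trans hyH
    obtain ⟨z, hz, hz'⟩ := hM2 c hlt W hW' s hs (hsR.trans (le_max_left _ _)) ⌊y'⌋₊ ⌊y⌋₊ (Nat.le_floor hy')
      (Nat.floor_le_floor hyy) hY7
    have h4 := prod_near (fun v => Pool.Agent.W350.EdgeEC.lf W v s) hy'0 hyy hδ1 hz hz'
    have h5 : ∀ z : ℝ, product W z s = ∏ᶠ v ∈ {v : HeightOneSpectrum (𝓞 K) | (Ideal.absNorm v.asIdeal : ℝ) ≤ z},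
        Pool.Agent.W350.EdgeEC.lf W v s := by
      intro z
      unfold product
      exact finprod_congr fun v => finprod_congr fun _ => hlf v s
    rw [h5, h5]
    exact h4.trans (mul_le_mul_of_nonneg_right hδ2 (norm_nonneg _))

end Pool.Agent.Results.MP_0d9be2_nt.StableTwists
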